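import Pool.Agent.Q93.VM.Four

/-!
# Comparison of Vinogradov mean values along affine coverings
-/

namespace Pool.Agent.Q93.VM

open Finset

theorem affine_aux {R : Type*} [CommRing R] (s k : ℕ) (a b : R) (x y : Fin s → R)
    (h : ∀ j < k, ∑ i, x i ^ (j + 1) = ∑ i, y i ^ (j + 1)) :
    ∀ j < k, ∑ i, (a * x i + b) ^ (j + 1) = ∑ i, (a * y i + b) ^ (j + 1) := by
  intro j hj
  have e : ∀ z : Fin s → R, ∑ i, (a * z i + b) ^ (j + 1) =
      ∑ m ∈ Finset.range (j + 1 + 1), (a ^ m * b ^ (j + 1 - m) * ((j + 1).choose m : R)) *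
        ∑ i, z i ^ m := by
    intro z
    simp only [add_pow, mul_pow]
    rw [Finset.sum_comm]
    refine Finset.sum_congr rfl fun m _ => ?_
    rw [Finset.mul_sum]
    refine Finset.sum_congr rfl fun i _ => ?_
    ring
  rw [e x, e y]
  refine Finset.sum_congr rfl fun m hm => ?_
  rcases Nat.eq_zero_or_pos m with rfl | hm0
  · simp
  · have hm1 : m - 1 < k := by
      have := Finset.mem_range.1 hm
      omega
    have := h (m - 1) hm1
    rw [Nat.sub_add_cancel hm0] at this
    rw [this]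

theorem Sys_iff (s k : ℕ) (x y : Fin s → ℤ) :
    Sys s k x y ↔ ∀ j < k, ∑ i, x i ^ (j + 1) = ∑ i, y i ^ (j + 1) :=
  ⟨fun h j hj => h ⟨j, hj⟩, fun h j => h j.1 j.2⟩

theorem Sys_affine (s k : ℕ) {a : ℤ} (ha : a ≠ 0) (b : ℤ) (x y : Fin s → ℤ) :
    Sys s k (fun i => a * x i + b) (fun i => a * y i + b) ↔ Sys s k x y := by
  rw [Sys_iff, Sys_iff]
  constructor
  · intro h j hj
    have h1 : ∀ j < k, ∑ i, ((a * x i + b : ℤ) : ℚ) ^ (j + 1) =
        ∑ i, ((a * y i + b : ℤ) : ℚ) ^ (j + 1) := by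
      intro j hj
      exact_mod_cast h j hj
    have h2 := affine_aux s k ((a : ℚ)⁻¹) (-((a : ℚ)⁻¹ * b)) _ _ h1 j hj
    have ha' : (a : ℚ) ≠ 0 := by exact_mod_cast ha
    have e : ∀ z : ℤ, (a : ℚ)⁻¹ * ((a * z + b : ℤ) : ℚ) + -((a : ℚ)⁻¹ * b) = z := by
      intro z
      push_cast
      field_simp
      ring
    simp only [e] at h2
    exact_mod_cast h2
  · intro h
    exact affine_aux s k a b x y h

theorem W_affine {ι : Type*} [Fintype ι] (s k : ℕ) {a : ℤ} (ha : a ≠ 0) (b : ℤ) (φ : ι → ℤ)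
    (w : ι → ℝ) : W s k (fun i => a * φ i + b) w = W s k φ w := by
  unfold W
  refine Finset.sum_congr rfl fun x _ => Finset.sum_congr rfl fun y _ => ?_
  by_cases h : Sys s k (fun i => φ (x i)) (fun i => φ (y i))
  · rw [if_pos h, if_pos ((Sys_affine s k ha b _ _).2 h)]
  · rw [if_neg h, if_neg (fun h' => h ((Sys_affine s k ha b _ _).1 h'))]

theorem W_nonneg {ι : Type*} [Fintype ι] (s k : ℕ) (φ : ι → ℤ) (w : ι → ℝ) (hw : ∀ i, 0 ≤ w i) :
    0 ≤ W s k φ w := by
  unfold W
  refine Finset.sum_nonneg fun x _ => Finset.sum_nonneg fun y _ => ?_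
  split_ifs
  · exact mul_nonneg (Finset.prod_nonneg fun i _ => hw _) (Finset.prod_nonneg fun i _ => hw _)
  · exact le_rfl

theorem W_mono {ι : Type*} [Fintype ι] (s k : ℕ) (φ : ι → ℤ) (w v : ι → ℝ) (hw : ∀ i, 0 ≤ w i)
    (hv : ∀ i, w i ≤ v i) : W s k φ w ≤ W s k φ v := by
  unfold W
  refine Finset.sum_le_sum fun x _ => Finset.sum_le_sum fun y _ => ?_
  split_ifs
  · exact mul_le_mul (Finset.prod_le_prod (fun i _ => hw _) fun i _ => hv _)
      (Finset.prod_le_prod (fun i _ => hw _) fun i _ => hv _)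
      (Finset.prod_nonneg fun i _ => hw _)
      (Finset.prod_nonneg fun i _ => (hw _).trans (hv _))
  · exact le_rfl

theorem W_smul {ι : Type*} [Fintype ι] (s k : ℕ) (φ : ι → ℤ) (w : ι → ℝ) (r : ℝ) :
    W s k φ (fun i => r * w i) = r ^ (2 * s) * W s k φ w := by
  unfold W
  rw [Finset.mul_sum]
  refine Finset.sum_congr rfl fun x _ => ?_
  rw [Finset.mul_sum]
  refine Finset.sum_congr rfl fun y _ => ?_
  split_ifs
  · rw [Finset.prod_mul_distrib, Finset.prod_mul_distrib, Finset.prod_const]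
    simp only [Finset.card_univ, Fintype.card_fin]
    ring
  · simp

theorem Big.comp {ι κ : Type*} {s k M : ℕ} {φ : ι → ℤ} (h : Big s k M φ) (g : κ → ι) :
    Big s k M (fun i => φ (g i)) :=
  fun x y j hd => h (fun i => g (x i)) (fun i => g (y i)) j hd

/-- The covering inequality, weights on an index set. -/
theorem covering {ι τ : Type*} [Fintype ι] [Fintype τ] (s k : ℕ) (φ : ι → ℤ) (w : ι → ℝ)
    (hw : ∀ i, 0 ≤ w i) (a b : τ → ℤ) (ha : ∀ t, a t ≠ 0) (B : Finset ℤ) (v₀ : ℤ → ℝ)
    (hv₀ : ∀ n, 0 ≤ v₀ n)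
    (hB : ∀ n ∈ B, v₀ n ≤ ∑ t, ∑ i, if a t * φ i + b t = n then w i else 0) :
    W s k (fun n : B => (n : ℤ)) (fun n => v₀ n) ≤ (Fintype.card τ : ℝ) ^ (2 * s) * W s k φ w := by
  classical
  rcases Nat.eq_zero_or_pos s with rfl | hs
  · unfold W Sys
    simp
  set U : Finset ℤ := B ∪ (Finset.univ : Finset (τ × ι)).image (fun p => a p.1 * φ p.2 + b p.1)
    with hU
  obtain ⟨M₀, hM₀⟩ := exists_big s k (fun n : U => (n : ℤ))
  set M := M₀ + 1 with hM
  have : NeZero M := ⟨by omega⟩
  have hbig : Big s k M (fun n : U => (n : ℤ)) := hM₀ M (by omega)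
  set v : ℤ → ℝ := fun n => ∑ t, ∑ i, if a t * φ i + b t = n then w i else 0 with hv
  have hvnn : ∀ n, 0 ≤ v n := fun n => Finset.sum_nonneg fun t _ => Finset.sum_nonneg fun i _ => by
    split_ifs
    · exact hw i
    · exact le_rfl
  -- the sum in two ways
  have hmem : ∀ t i, a t * φ i + b t ∈ U := fun t i => by
    rw [hU]
    exact Finset.mem_union_right _ (Finset.mem_image.2 ⟨(t, i), Finset.mem_univ _, rfl⟩)
  have hH : ∀ ξ : Fin k → ZMod M, ES k M (fun n : U => (n : ℤ)) (fun n => v n) ξ =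
      ∑ t, ES k M (fun i => a t * φ i + b t) w ξ := by
    intro ξ
    unfold ES
    have e1 : ∀ n : U, ((v n : ℝ) : ℂ) * chi k M ξ n =
        ∑ t, ∑ i, if a t * φ i + b t = (n : ℤ) then (w i : ℂ) * chi k M ξ (a t * φ i + b t)
          else 0 := by
      intro n
      rw [hv]
      push_cast
      rw [Finset.sum_mul]
      refine Finset.sum_congr rfl fun t _ => ?_
      rw [Finset.sum_mul]
      refine Finset.sum_congr rfl fun i _ => ?_
      split_ifs with h
      · rw [h]
      · simp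
    rw [Finset.sum_congr rfl (fun n _ => e1 n), Finset.sum_comm]
    refine Finset.sum_congr rfl fun t _ => ?_
    rw [Finset.sum_comm]
    refine Finset.sum_congr rfl fun i _ => ?_
    rw [Finset.sum_eq_single (⟨a t * φ i + b t, hmem t i⟩ : U)]
    · simp
    · intro n _ hn
      rw [if_neg]
      intro h
      apply hn
      apply Subtype.ext
      exact h.symm
    · intro h
      exact absurd (Finset.mem_univ _) h
  have hmom := moment s k M (fun n : U => (n : ℤ)) (fun n => v n) hbig
  have hmomt : ∀ t, ∑ ξ : Fin k → ZMod M, ‖ES k M (fun i => a t * φ i + b t) w ξ‖ ^ (2 * s) =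
      (M : ℝ) ^ k * W s k φ w := by
    intro t
    have hb : Big s k M (fun i => a t * φ i + b t) :=
      hbig.comp (fun i => (⟨a t * φ i + b t, hmem t i⟩ : U))
    rw [moment s k M _ w hb, W_affine s k (ha t) (b t)]
  have hconv : ∀ ξ : Fin k → ZMod M, ‖ES k M (fun n : U => (n : ℤ)) (fun n => v n) ξ‖ ^ (2 * s) ≤
      (Fintype.card τ : ℝ) ^ (2 * s - 1) *
        ∑ t, ‖ES k M (fun i => a t * φ i + b t) w ξ‖ ^ (2 * s) := by
    intro ξ
    rw [hH ξ]
    have h1 : ‖∑ t, ES k M (fun i => a t * φ i + b t) w ξ‖ ≤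
        ∑ t, ‖ES k M (fun i => a t * φ i + b t) w ξ‖ := norm_sum_le _ _
    have h2 := pow_sum_div_card_le_sum_pow (s := (Finset.univ : Finset τ))
      (f := fun t => ‖ES k M (fun i => a t * φ i + b t) w ξ‖) (fun _ _ => norm_nonneg _)
      (2 * s - 1)
    have h3 : 2 * s - 1 + 1 = 2 * s := by omega
    rw [h3] at h2
    rcases isEmpty_or_nonempty τ with hτ | hτ
    · have h0 : (0 : ℝ) ^ (2 * s) = 0 := zero_pow (by omega)
      simp [h0]
    · have hc : (0 : ℝ) < (Fintype.card τ : ℝ) ^ (2 * s - 1) := by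
        have : 0 < Fintype.card τ := Fintype.card_pos
        positivity
      rw [Finset.card_univ, div_le_iff₀ hc] at h2
      calc ‖∑ t, ES k M (fun i => a t * φ i + b t) w ξ‖ ^ (2 * s)
          ≤ (∑ t, ‖ES k M (fun i => a t * φ i + b t) w ξ‖) ^ (2 * s) :=
            pow_le_pow_left₀ (norm_nonneg _) h1 _
        _ ≤ _ := h2
        _ = _ := by ring
  have hsum : (M : ℝ) ^ k * W s k (fun n : U => (n : ℤ)) (fun n => v n) ≤
      (M : ℝ) ^ k * ((Fintype.card τ : ℝ) ^ (2 * s) * W s k φ w) := by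
    rw [← hmom]
    calc ∑ ξ : Fin k → ZMod M, ‖ES k M (fun n : U => (n : ℤ)) (fun n => v n) ξ‖ ^ (2 * s)
        ≤ ∑ ξ : Fin k → ZMod M, (Fintype.card τ : ℝ) ^ (2 * s - 1) *
          ∑ t, ‖ES k M (fun i => a t * φ i + b t) w ξ‖ ^ (2 * s) :=
          Finset.sum_le_sum fun ξ _ => hconv ξ
      _ = (Fintype.card τ : ℝ) ^ (2 * s - 1) * ∑ t : τ, (M : ℝ) ^ k * W s k φ w := by
          rw [← Finset.mul_sum, Finset.sum_comm]
          rw [Finset.sum_congr rfl (fun t _ => hmomt t)]
      _ = (M : ℝ) ^ k * ((Fintype.card τ : ℝ) ^ (2 * s) * W s k φ w) := by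
          rw [Finset.sum_const, Finset.card_univ, nsmul_eq_mul]
          have h3 : (Fintype.card τ : ℝ) ^ (2 * s) =
              (Fintype.card τ : ℝ) ^ (2 * s - 1) * (Fintype.card τ : ℝ) := by
            rw [← pow_succ]
            congr 1
            omega
          rw [h3]
          ring
  have hMpos : (0 : ℝ) < (M : ℝ) ^ k := by
    have : (0 : ℝ) < M := by exact_mod_cast Nat.pos_of_ne_zero (NeZero.ne M)
    positivity
  have hle := le_of_mul_le_mul_left hsum hMpos
  refine le_trans ?_ hle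
  -- compare `B` with `U`
  have hBU : ∀ n : B, (n : ℤ) ∈ U := fun n => Finset.mem_union_left _ n.2
  let g : B → U := fun n => ⟨n, hBU n⟩
  have hg : Function.Injective g := by
    intro m n h
    apply Subtype.ext
    have := congrArg (fun z : U => (z : ℤ)) h
    exact this
  calc W s k (fun n : B => (n : ℤ)) (fun n => v₀ n)
      ≤ W s k (fun n : B => (n : ℤ)) (fun n => v n) :=
        W_mono s k _ _ _ (fun n => hv₀ n) (fun n => hB n n.2)
    _ = ∑ x : Fin s → B, ∑ y : Fin s → B, (fun (x y : Fin s → U) =>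
        if Sys s k (fun i => (x i : ℤ)) (fun i => (y i : ℤ)) then
          (∏ i, v (x i)) * ∏ i, v (y i) else 0) (fun i => g (x i)) (fun i => g (y i)) := rfl
    _ ≤ W s k (fun n : U => (n : ℤ)) (fun n => v n) := by
        unfold W
        set F : (Fin s → U) → (Fin s → U) → ℝ := fun (x y : Fin s → U) =>
          if Sys s k (fun i => (x i : ℤ)) (fun i => (y i : ℤ)) then
          (∏ i, v (x i)) * ∏ i, v (y i) else 0 with hF
        have hFnn : ∀ x y, 0 ≤ F x y := by
          intro x y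
          rw [hF]
          dsimp only
          split_ifs
          · exact mul_nonneg (Finset.prod_nonneg fun i _ => hvnn _)
              (Finset.prod_nonneg fun i _ => hvnn _)
          · exact le_rfl
        have hG : Function.Injective (fun (x : Fin s → B) (i : Fin s) => g (x i)) := by
          intro x y h
          funext i
          exact hg (congrFun h i)
        calc ∑ x : Fin s → B, ∑ y : Fin s → B, F (fun i => g (x i)) (fun i => g (y i))
            ≤ ∑ x : Fin s → B, ∑ y : Fin s → U, F (fun i => g (x i)) y := by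
              refine Finset.sum_le_sum fun x _ => ?_
              rw [← Finset.sum_image (f := fun y => F (fun i => g (x i)) y)
                (s := (Finset.univ : Finset (Fin s → B)))
                (g := fun (y : Fin s → B) (i : Fin s) => g (y i)) (fun _ _ _ _ h => hG h)]
              exact Finset.sum_le_sum_of_subset_of_nonneg (Finset.subset_univ _)
                (fun _ _ _ => hFnn _ _)
          _ ≤ ∑ x : Fin s → U, ∑ y : Fin s → U, F x y := by
              rw [← Finset.sum_image (f := fun x => ∑ y : Fin s → U, F x y)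
                (s := (Finset.univ : Finset (Fin s → B)))
                (g := fun (y : Fin s → B) (i : Fin s) => g (y i)) (fun _ _ _ _ h => hG h)]
              exact Finset.sum_le_sum_of_subset_of_nonneg (Finset.subset_univ _)
                (fun _ _ _ => Finset.sum_nonneg fun _ _ => hFnn _ _)

end Pool.Agent.Q93.VM
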