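import Pool.Agent.Q93.VM.Defs

/-!
# Moving the number of variables
-/

namespace Pool.Agent.Q93.VM

open Finset

theorem moment_J (s k : ℕ) (A : Finset ℤ) : ∃ M₀ : ℕ, ∀ M : ℕ, M₀ ≤ M → ∀ [NeZero M],
    ∑ ξ : Fin k → ZMod M, ‖ES k M (fun n : A => (n : ℤ)) (fun _ => 1) ξ‖ ^ (2 * s) =
      (M : ℝ) ^ k * J s k A := by
  obtain ⟨M₀, hM₀⟩ := exists_big s k (fun n : A => (n : ℤ))
  refine ⟨M₀, fun M hM _ => ?_⟩
  rw [moment s k M _ _ (hM₀ M hM), ← JW_one, ← W_eq_JW]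

theorem norm_chi (k M : ℕ) [NeZero M] (ξ : Fin k → ZMod M) (n : ℤ) : ‖chi k M ξ n‖ = 1 := by
  unfold chi
  rw [norm_prod]
  refine Finset.prod_eq_one fun j _ => ?_
  exact AddChar.norm_apply _ _

theorem norm_ES_le (k M : ℕ) [NeZero M] (A : Finset ℤ) (ξ : Fin k → ZMod M) :
    ‖ES k M (fun n : A => (n : ℤ)) (fun _ => 1) ξ‖ ≤ A.card := by
  unfold ES
  refine (norm_sum_le _ _).trans ?_
  refine (Finset.sum_le_sum (g := fun _ => (1 : ℝ)) fun i _ => ?_).trans ?_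
  · rw [norm_mul, norm_chi]
    simp
  · simp

theorem J_up (s t k : ℕ) (A : Finset ℤ) :
    (J (s + t) k A : ℝ) ≤ (A.card : ℝ) ^ (2 * t) * J s k A := by
  obtain ⟨M₁, h₁⟩ := moment_J (s + t) k A
  obtain ⟨M₂, h₂⟩ := moment_J s k A
  set M := M₁ + M₂ + 1 with hM
  have : NeZero M := ⟨by omega⟩
  have e₁ := h₁ M (by omega)
  have e₂ := h₂ M (by omega)
  have hMpos : (0 : ℝ) < (M : ℝ) ^ k := by
    have : (0 : ℝ) < M := by exact_mod_cast Nat.pos_of_ne_zero (NeZero.ne M)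
    positivity
  refine le_of_mul_le_mul_left ?_ hMpos
  rw [← e₁]
  calc ∑ ξ : Fin k → ZMod M, ‖ES k M (fun n : A => (n : ℤ)) (fun _ => 1) ξ‖ ^ (2 * (s + t))
      ≤ ∑ ξ : Fin k → ZMod M, (A.card : ℝ) ^ (2 * t) *
        ‖ES k M (fun n : A => (n : ℤ)) (fun _ => 1) ξ‖ ^ (2 * s) := by
        refine Finset.sum_le_sum fun ξ _ => ?_
        rw [mul_add, pow_add, mul_comm]
        exact mul_le_mul_of_nonneg_right
          (pow_le_pow_left₀ (norm_nonneg _) (norm_ES_le k M A ξ) _) (by positivity)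
    _ = (M : ℝ) ^ k * ((A.card : ℝ) ^ (2 * t) * J s k A) := by
        rw [← Finset.mul_sum, e₂]
        ring

theorem J_down (s K k : ℕ) (hs : 1 ≤ s) (hsK : s ≤ K) (A : Finset ℤ) :
    (J s k A : ℝ) ≤ ((J K k A : ℝ)) ^ ((s : ℝ) / K) := by
  obtain ⟨M₁, h₁⟩ := moment_J K k A
  obtain ⟨M₂, h₂⟩ := moment_J s k A
  set M := M₁ + M₂ + 1 with hM
  have : NeZero M := ⟨by omega⟩
  have e₁ := h₁ M (by omega)
  have e₂ := h₂ M (by omega)
  have hMpos : (0 : ℝ) < (M : ℝ) ^ k := by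
    have : (0 : ℝ) < M := by exact_mod_cast Nat.pos_of_ne_zero (NeZero.ne M)
    positivity
  have hs0 : (0 : ℝ) < s := by exact_mod_cast hs
  have hK0 : (0 : ℝ) < K := by exact_mod_cast (lt_of_lt_of_le hs hsK)
  have hp : (1 : ℝ) ≤ (K : ℝ) / s := by
    rw [le_div_iff₀ hs0, one_mul]
    exact_mod_cast hsK
  have hj := Real.rpow_arith_mean_le_arith_mean_rpow (Finset.univ : Finset (Fin k → ZMod M))
    (fun _ => ((M : ℝ) ^ k)⁻¹)
    (fun ξ => ‖ES k M (fun n : A => (n : ℤ)) (fun _ => 1) ξ‖ ^ (2 * s))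
    (fun _ _ => by positivity)
    (by
      rw [Finset.sum_const, Finset.card_univ, Fintype.card_fun, ZMod.card, Fintype.card_fin,
        nsmul_eq_mul]
      push_cast
      exact mul_inv_cancel₀ hMpos.ne')
    (fun _ _ => by positivity) hp
  rw [← Finset.mul_sum, e₂, inv_mul_cancel_left₀ hMpos.ne'] at hj
  have e₃ : ∀ ξ : Fin k → ZMod M,
      (‖ES k M (fun n : A => (n : ℤ)) (fun _ => 1) ξ‖ ^ (2 * s)) ^ ((K : ℝ) / s) =
      ‖ES k M (fun n : A => (n : ℤ)) (fun _ => 1) ξ‖ ^ (2 * K) := by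
    intro ξ
    rw [← Real.rpow_natCast, ← Real.rpow_mul (norm_nonneg _), ← Real.rpow_natCast]
    congr 1
    push_cast
    field_simp
  simp only [e₃] at hj
  rw [← Finset.mul_sum, e₁, inv_mul_cancel_left₀ hMpos.ne'] at hj
  have h := Real.rpow_le_rpow (by positivity) hj (z := (s : ℝ) / K) (by positivity)
  rw [← Real.rpow_mul (by positivity)] at h
  have : (K : ℝ) / s * (s / K) = 1 := by field_simp
  rwa [this, Real.rpow_one] at h

end Pool.Agent.Q93.VM
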