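import Pool.Agent.Q93.VM.Comp

/-!
# Solutions of Vinogradov's system in a finite set of integers
-/

namespace Pool.Agent.Q93.VM

open Finset

/-- The solutions `(x, y)` of Vinogradov's system of degree `k` in `s` pairs of variables, all
variables in the finite set `A` of integers. -/
def Sol (s k : ℕ) (A : Finset ℤ) : Finset ((Fin s → ℤ) × (Fin s → ℤ)) :=
  ((Fintype.piFinset fun _ : Fin s => A) ×ˢ (Fintype.piFinset fun _ : Fin s => A)).filter
    (fun p => ∀ j : Fin k, ∑ i, p.1 i ^ (j.val + 1) = ∑ i, p.2 i ^ (j.val + 1))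

/-- The number `J_{s,k}(A)` of solutions. -/
def J (s k : ℕ) (A : Finset ℤ) : ℕ := (Sol s k A).card

/-- The solutions counted with the weight `∏ w(x_i) ∏ w(y_i)`. -/
noncomputable def JW (s k : ℕ) (A : Finset ℤ) (w : ℤ → ℝ) : ℝ :=
  ∑ p ∈ Sol s k A, (∏ i, w (p.1 i)) * ∏ i, w (p.2 i)

theorem sum_pi (s : ℕ) (A : Finset ℤ) (f : (Fin s → ℤ) → ℝ) :
    ∑ x : Fin s → A, f (fun i => (x i : ℤ)) = ∑ x ∈ Fintype.piFinset (fun _ : Fin s => A), f x := by
  refine Finset.sum_bij (fun x _ => fun i => (x i : ℤ)) ?_ ?_ ?_ ?_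
  · intro x _
    exact Fintype.mem_piFinset.2 fun i => (x i).2
  · intro x _ y _ h
    funext i
    exact Subtype.ext (congrFun h i)
  · intro x hx
    exact ⟨fun i => ⟨x i, Fintype.mem_piFinset.1 hx i⟩, Finset.mem_univ _, rfl⟩
  · intro x _
    rfl

theorem W_eq_JW (s k : ℕ) (A : Finset ℤ) (w : ℤ → ℝ) :
    W s k (fun n : A => (n : ℤ)) (fun n => w n) = JW s k A w := by
  unfold W JW Sol
  rw [Finset.sum_filter, Finset.sum_product]
  rw [← sum_pi s A]
  refine Finset.sum_congr rfl fun x _ => ?_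
  rw [← sum_pi s A]
  rfl

theorem JW_one (s k : ℕ) (A : Finset ℤ) : JW s k A (fun _ => 1) = J s k A := by
  unfold JW J
  simp

/-- Affine covering inequality. -/
theorem cover {τ : Type*} [Fintype τ] (s k : ℕ) (a b : τ → ℤ) (ha : ∀ t, a t ≠ 0)
    (A B : Finset ℤ) (w v : ℤ → ℝ) (hw : ∀ n, 0 ≤ w n) (hv : ∀ n, 0 ≤ v n)
    (hB : ∀ n ∈ B, v n ≤ ∑ t, ∑ m ∈ A.filter (fun m => a t * m + b t = n), w m) :
    JW s k B v ≤ (Fintype.card τ : ℝ) ^ (2 * s) * JW s k A w := by
  classical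
  have h := covering s k (fun n : A => (n : ℤ)) (fun n => w n) (fun n => hw n) a b ha B v hv ?_
  · rwa [W_eq_JW, W_eq_JW] at h
  · intro n hn
    refine (hB n hn).trans (le_of_eq ?_)
    refine Finset.sum_congr rfl fun t _ => ?_
    rw [Finset.sum_filter, ← Finset.sum_coe_sort]

theorem JW_smul (s k : ℕ) (A : Finset ℤ) (r : ℝ) :
    JW s k A (fun _ => r) = r ^ (2 * s) * J s k A := by
  rw [← JW_one, ← W_eq_JW, ← W_eq_JW, ← W_smul]
  simp

/-- Nonnegative weights on an interval. -/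
theorem weight_interval (s k N : ℕ) (hN : 1 ≤ N) (w : ℤ → ℝ) (hw : ∀ n, 0 ≤ w n) :
    (∑ n ∈ Finset.Icc (1 : ℤ) N, w n) ^ (2 * s) * (J s k (Finset.Icc (1 : ℤ) N) : ℝ) ≤
      (2 * (N : ℝ)) ^ (2 * s) * JW s k (Finset.Icc (1 : ℤ) N) w := by
  classical
  have h := cover (τ := Finset.Icc (-(N : ℤ)) ((N : ℤ) - 1)) s k (fun _ => 1) (fun t => (t : ℤ))
    (fun _ => one_ne_zero) (Finset.Icc (1 : ℤ) N) (Finset.Icc (1 : ℤ) N) w
    (fun _ => ∑ n ∈ Finset.Icc (1 : ℤ) N, w n) hw (fun _ => Finset.sum_nonneg fun n _ => hw n) ?_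
  · rw [JW_smul] at h
    refine h.trans (le_of_eq ?_)
    congr 2
    rw [Fintype.card_coe, Int.card_Icc]
    have : ((N : ℤ) - 1 + 1 - (-(N : ℤ))).toNat = 2 * N := by omega
    rw [this]
    push_cast
    rfl
  · intro n hn
    rw [Finset.sum_coe_sort (Finset.Icc (-(N : ℤ)) ((N : ℤ) - 1))
      (fun t => ∑ m ∈ (Finset.Icc (1 : ℤ) N).filter (fun m => 1 * m + t = n), w m)]
    have hn' := Finset.mem_Icc.1 hn
    rw [← Finset.sum_fiberwise_of_maps_to (s := Finset.Icc (1 : ℤ) N)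
      (t := Finset.Icc (-(N : ℤ)) ((N : ℤ) - 1)) (g := fun m => n - m)]
    · refine Finset.sum_le_sum fun t _ => le_of_eq ?_
      refine Finset.sum_congr ?_ fun _ _ => rfl
      ext m
      simp only [Finset.mem_filter, and_congr_right_iff]
      intro _
      constructor
      · intro h; omega
      · intro h; omega
    · intro m hm
      have hm' := Finset.mem_Icc.1 hm
      rw [Finset.mem_Icc]
      constructor <;> omega

theorem Sol_mono (s k : ℕ) {A B : Finset ℤ} (h : A ⊆ B) : Sol s k A ⊆ Sol s k B := by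
  unfold Sol
  refine Finset.filter_subset_filter _ (Finset.product_subset_product ?_ ?_) <;>
  exact Fintype.piFinset_subset _ _ fun _ => h

theorem J_mono (s k : ℕ) {A B : Finset ℤ} (h : A ⊆ B) : J s k A ≤ J s k B :=
  Finset.card_le_card (Sol_mono s k h)

theorem JW_indicator (s k : ℕ) (A B : Finset ℤ) (h : A ⊆ B) :
    JW s k B (fun n => if n ∈ A then 1 else 0) = J s k A := by
  classical
  unfold JW J
  rw [Finset.card_eq_sum_ones]
  push_cast
  rw [← Finset.sum_subset (Sol_mono s k h)]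
  · refine Finset.sum_congr rfl fun p hp => ?_
    unfold Sol at hp
    rw [Finset.mem_filter, Finset.mem_product, Fintype.mem_piFinset, Fintype.mem_piFinset] at hp
    rw [Finset.prod_congr rfl (fun i _ => if_pos (hp.1.1 i)),
      Finset.prod_congr rfl (fun i _ => if_pos (hp.1.2 i))]
    simp
  · intro p hp hpA
    by_contra hne
    apply hpA
    unfold Sol at hp ⊢
    rw [Finset.mem_filter, Finset.mem_product, Fintype.mem_piFinset, Fintype.mem_piFinset] at hp ⊢
    refine ⟨⟨fun i => ?_, fun i => ?_⟩, hp.2⟩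
    · by_contra hi
      apply hne
      rw [Finset.prod_eq_zero (Finset.mem_univ i) (if_neg hi), zero_mul]
    · by_contra hi
      apply hne
      rw [Finset.prod_eq_zero (s := Finset.univ) (i := i)
        (f := fun i => if p.2 i ∈ A then (1 : ℝ) else 0) (Finset.mem_univ i) (if_neg hi), mul_zero]

theorem set_interval (s k N : ℕ) (hN : 1 ≤ N) (A : Finset ℤ) (hA : A ⊆ Finset.Icc (1 : ℤ) N) :
    (A.card : ℝ) ^ (2 * s) * (J s k (Finset.Icc (1 : ℤ) N) : ℝ) ≤
      (2 * (N : ℝ)) ^ (2 * s) * J s k A := by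
  classical
  have h := weight_interval s k N hN (fun n => if n ∈ A then 1 else 0)
    (fun n => by positivity)
  rw [JW_indicator s k A _ hA] at h
  have e : ∑ n ∈ Finset.Icc (1 : ℤ) N, (if n ∈ A then (1 : ℝ) else 0) = A.card := by
    rw [← Finset.sum_filter, Finset.filter_mem_eq_inter, Finset.inter_eq_right.2 hA]
    simp
  rwa [e] at h

end Pool.Agent.Q93.VM
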