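import Pool.Agent.Q93.VM.Log
import Pool.Agent.Q93.VM.Crit

/-!
# Consequences for the mean values
-/

namespace Pool.Agent.Q93.VM

open Finset

/-- one weight per scale of positive mean decides -/
theorem of_weight (s k : ℕ) (F : ℕ → ℝ) (δ C : ℝ) (hδ : 0 < δ)
    (h : ∀ N : ℕ, 1 ≤ N → ∃ w : ℤ → ℝ, (∀ n, 0 ≤ w n) ∧
      δ * N ≤ ∑ n ∈ Finset.Icc (1 : ℤ) N, w n ∧ JW s k (Finset.Icc (1 : ℤ) N) w ≤ C * F N) :
    ∀ N : ℕ, 1 ≤ N → (J s k (Finset.Icc (1 : ℤ) N) : ℝ) ≤ (2 / δ) ^ (2 * s) * C * F N := by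
  intro N hN
  obtain ⟨w, hw, hm, hJ⟩ := h N hN
  have h1 := weight_interval s k N hN w hw
  have hN0 : (0 : ℝ) < N := by exact_mod_cast hN
  have h2 : (δ * N) ^ (2 * s) * (J s k (Finset.Icc (1 : ℤ) N) : ℝ) ≤
      (2 * (N : ℝ)) ^ (2 * s) * (C * F N) := by
    calc (δ * N) ^ (2 * s) * (J s k (Finset.Icc (1 : ℤ) N) : ℝ)
        ≤ (∑ n ∈ Finset.Icc (1 : ℤ) N, w n) ^ (2 * s) * (J s k (Finset.Icc (1 : ℤ) N) : ℝ) :=
          mul_le_mul_of_nonneg_right (pow_le_pow_left₀ (by positivity) hm _) (by positivity)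
      _ ≤ _ := h1
      _ ≤ _ := mul_le_mul_of_nonneg_left hJ (by positivity)
  have h3 : (0 : ℝ) < (δ * N) ^ (2 * s) := by positivity
  have h4 : (2 / δ) ^ (2 * s) * C * F N = ((2 * (N : ℝ)) ^ (2 * s) * (C * F N)) / (δ * N) ^ (2 * s) := by
    rw [mul_pow, mul_pow, div_pow]
    field_simp
  rw [h4, le_div_iff₀ h3]
  linarith

/-- (3,2) on dense sets -/
theorem three_two (N : ℕ) (hN : 1 ≤ N) (A : Finset ℤ) (hA : A ⊆ Finset.Icc (1 : ℤ) N) :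
    (A.card : ℝ) ^ 6 * Real.log N ≤ 2 ^ 20 * (N : ℝ) ^ 3 * J 3 2 A := by
  have h1 := set_interval 3 2 N hN A hA
  have h2 := J_lower N hN
  have hN0 : (0 : ℝ) < N := by exact_mod_cast hN
  have h3 : (0 : ℝ) ≤ (A.card : ℝ) ^ 6 := by positivity
  norm_num at h1
  have h4 : (N : ℝ) ^ 3 * ((A.card : ℝ) ^ 6 * Real.log N) ≤
      (N : ℝ) ^ 3 * (2 ^ 20 * (N : ℝ) ^ 3 * J 3 2 A) := by
    calc (N : ℝ) ^ 3 * ((A.card : ℝ) ^ 6 * Real.log N) =
        (A.card : ℝ) ^ 6 * ((N : ℝ) ^ 3 * Real.log N) := by ring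
      _ ≤ (A.card : ℝ) ^ 6 * (2 ^ 14 * J 3 2 (Finset.Icc (1 : ℤ) N)) :=
          mul_le_mul_of_nonneg_left h2 h3
      _ = 2 ^ 14 * ((A.card : ℝ) ^ 6 * J 3 2 (Finset.Icc (1 : ℤ) N)) := by ring
      _ ≤ 2 ^ 14 * ((2 * (N : ℝ)) ^ 6 * J 3 2 A) := mul_le_mul_of_nonneg_left h1 (by norm_num)
      _ = _ := by ring
  exact le_of_mul_le_mul_left h4 (by positivity)

/-- only permutations: at most `s! |A|^s` solutions -/
theorem J_perm (s k : ℕ) (A : Finset ℤ)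
    (h : ∀ p ∈ Sol s k A, ∃ σ : Equiv.Perm (Fin s), p.2 = p.1 ∘ σ) :
    J s k A ≤ s.factorial * A.card ^ s := by
  classical
  have hsub : Sol s k A ⊆ ((Finset.univ : Finset (Equiv.Perm (Fin s))) ×ˢ
      (Fintype.piFinset fun _ : Fin s => A)).image (fun q => (q.2, q.2 ∘ q.1)) := by
    intro p hp
    obtain ⟨σ, hσ⟩ := h p hp
    rw [Finset.mem_image]
    refine ⟨(σ, p.1), ?_, ?_⟩
    · rw [Finset.mem_product]
      unfold Sol at hp
      rw [Finset.mem_filter, Finset.mem_product] at hp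
      exact ⟨Finset.mem_univ _, hp.1.1⟩
    · exact Prod.ext rfl hσ.symm
  have h1 := (Finset.card_le_card hsub).trans Finset.card_image_le
  rw [Finset.card_product, Finset.card_univ, Fintype.card_perm, Fintype.card_fin] at h1
  simpa [Fintype.card_piFinset, J] using h1

theorem three_two_B3 (N : ℕ) (hN : 1 ≤ N) (A : Finset ℤ) (hA : A ⊆ Finset.Icc (1 : ℤ) N)
    (h : ∀ p ∈ Sol 3 2 A, ∃ σ : Equiv.Perm (Fin 3), p.2 = p.1 ∘ σ) :
    (A.card : ℝ) ^ 3 * Real.log N ≤ 2 ^ 23 * (N : ℝ) ^ 3 := by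
  have h1 := three_two N hN A hA
  have h2 := J_perm 3 2 A h
  have h3 : (J 3 2 A : ℝ) ≤ 6 * (A.card : ℝ) ^ 3 := by
    have : (J 3 2 A : ℝ) ≤ ((Nat.factorial 3 : ℕ) : ℝ) * (A.card : ℝ) ^ 3 := by exact_mod_cast h2
    have e : ((Nat.factorial 3 : ℕ) : ℝ) = 6 := by norm_num [Nat.factorial]
    rwa [e] at this
  have hN0 : (0 : ℝ) < N := by exact_mod_cast hN
  rcases Nat.eq_zero_or_pos A.card with h0 | h0
  · rw [h0]; norm_num
  · have hc : (0 : ℝ) < (A.card : ℝ) ^ 3 := by positivity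
    refine le_of_mul_le_mul_left ?_ hc
    calc (A.card : ℝ) ^ 3 * ((A.card : ℝ) ^ 3 * Real.log N) = (A.card : ℝ) ^ 6 * Real.log N := by
          ring
      _ ≤ 2 ^ 20 * (N : ℝ) ^ 3 * J 3 2 A := h1
      _ ≤ 2 ^ 20 * (N : ℝ) ^ 3 * (6 * (A.card : ℝ) ^ 3) :=
          mul_le_mul_of_nonneg_left h3 (by positivity)
      _ ≤ (A.card : ℝ) ^ 3 * (2 ^ 23 * (N : ℝ) ^ 3) := by
          have : 0 ≤ (A.card : ℝ) ^ 3 * (N : ℝ) ^ 3 := by positivity
          nlinarith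

/-- critical moment bound implies all moments -/
theorem of_critical (k K : ℕ) (hK : 1 ≤ K) (C : ℝ)
    (h : ∀ N : ℕ, 1 ≤ N → (J K k (Finset.Icc (1 : ℤ) N) : ℝ) ≤ C * (N : ℝ) ^ K) (s : ℕ)
    (hs : 1 ≤ s) : ∃ C' : ℝ, ∀ N : ℕ, 1 ≤ N → (J s k (Finset.Icc (1 : ℤ) N) : ℝ) ≤
      C' * ((N : ℝ) ^ (s : ℝ) + (N : ℝ) ^ (2 * (s : ℝ) - K)) := by
  have hC : 0 ≤ C := by
    have := h 1 le_rfl
    have h0 : (0 : ℝ) ≤ J K k (Finset.Icc (1 : ℤ) (1 : ℕ)) := by positivity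
    simp only [Nat.cast_one, one_pow, mul_one] at this
    exact le_trans (by positivity) this
  have hcard : ∀ N : ℕ, (Finset.Icc (1 : ℤ) N).card = N := fun N => by
    rw [Int.card_Icc]; omega
  rcases le_total s K with hsK | hsK
  · refine ⟨C ^ ((s : ℝ) / K), fun N hN => ?_⟩
    have hN0 : (0 : ℝ) < N := by exact_mod_cast hN
    have hK0 : (0 : ℝ) < K := by exact_mod_cast hK
    have h1 := J_down s K k hs hsK (Finset.Icc (1 : ℤ) N)
    have h2 : ((J K k (Finset.Icc (1 : ℤ) N) : ℝ)) ^ ((s : ℝ) / K) ≤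
        (C * (N : ℝ) ^ K) ^ ((s : ℝ) / K) :=
      Real.rpow_le_rpow (by positivity) (h N hN) (by positivity)
    have h3 : (C * (N : ℝ) ^ K) ^ ((s : ℝ) / K) = C ^ ((s : ℝ) / K) * (N : ℝ) ^ (s : ℝ) := by
      rw [Real.mul_rpow hC (by positivity), ← Real.rpow_natCast, ← Real.rpow_mul hN0.le]
      congr 2
      field_simp
    rw [h3] at h2
    refine (h1.trans h2).trans ?_
    refine mul_le_mul_of_nonneg_left ?_ (by positivity)
    have : (0 : ℝ) ≤ (N : ℝ) ^ (2 * (s : ℝ) - K) := by positivity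
    linarith
  · obtain ⟨t, rfl⟩ := Nat.exists_eq_add_of_le hsK
    refine ⟨C, fun N hN => ?_⟩
    have hN0 : (0 : ℝ) < N := by exact_mod_cast hN
    have h1 := J_up K t k (Finset.Icc (1 : ℤ) N)
    rw [hcard N] at h1
    refine h1.trans ?_
    calc (N : ℝ) ^ (2 * t) * J K k (Finset.Icc (1 : ℤ) N) ≤ (N : ℝ) ^ (2 * t) * (C * (N : ℝ) ^ K) :=
          mul_le_mul_of_nonneg_left (h N hN) (by positivity)
      _ = C * (N : ℝ) ^ (2 * ((K + t : ℕ) : ℝ) - K) := by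
          have e : (2 * ((K + t : ℕ) : ℝ) - K) = ((2 * t + K : ℕ) : ℝ) := by push_cast; ring
          rw [e, Real.rpow_natCast, pow_add]
          ring
      _ ≤ _ := by
          refine mul_le_mul_of_nonneg_left ?_ hC
          have : (0 : ℝ) ≤ (N : ℝ) ^ ((K + t : ℕ) : ℝ) := by positivity
          linarith

end Pool.Agent.Q93.VM
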