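import Mathlib

/-!
# Moments of exponential sums over the moment curve, finite Fourier form
-/

namespace Pool.Agent.Q93.VM

open Finset

/-- The system of equations: equal power sums of degrees `1..k`. -/
def Sys (s k : ℕ) (x y : Fin s → ℤ) : Prop :=
  ∀ j : Fin k, ∑ i, x i ^ (j.val + 1) = ∑ i, y i ^ (j.val + 1)

instance (s k : ℕ) (x y : Fin s → ℤ) : Decidable (Sys s k x y) := by
  unfold Sys; infer_instance

/-- weighted count for an indexed family -/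
noncomputable def W {ι : Type*} [Fintype ι] (s k : ℕ) (φ : ι → ℤ) (w : ι → ℝ) : ℝ :=
  ∑ x : Fin s → ι, ∑ y : Fin s → ι,
    if Sys s k (fun i => φ (x i)) (fun i => φ (y i)) then (∏ i, w (x i)) * ∏ i, w (y i) else 0

/-- the character of `(ZMod M)^k` evaluated on the moment curve -/
noncomputable def chi (k M : ℕ) [NeZero M] (ξ : Fin k → ZMod M) (n : ℤ) : ℂ :=
  ∏ j : Fin k, ZMod.stdAddChar (ξ j * ((n : ZMod M) ^ (j.val + 1)))

/-- the exponential sum -/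
noncomputable def ES {ι : Type*} [Fintype ι] (k M : ℕ) [NeZero M] (φ : ι → ℤ) (w : ι → ℝ)
    (ξ : Fin k → ZMod M) : ℂ := ∑ i, (w i : ℂ) * chi k M ξ (φ i)

theorem conj_stdAddChar (M : ℕ) [NeZero M] (a : ZMod M) :
    (starRingEnd ℂ) (ZMod.stdAddChar a) = ZMod.stdAddChar (-a) := by
  rw [AddChar.map_neg_eq_conj]

theorem char_sum {ι : Type*} {M : ℕ} [NeZero M] (S : Finset ι) (f : ι → ZMod M) :
    (ZMod.stdAddChar (∑ i ∈ S, f i) : ℂ) = ∏ i ∈ S, (ZMod.stdAddChar (f i) : ℂ) := by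
  classical
  induction S using Finset.induction_on with
  | empty => simp
  | insert a S ha ih => rw [Finset.sum_insert ha, Finset.prod_insert ha, AddChar.map_add_eq_mul, ih]

/-- `M` is large enough for the family -/
def Big {ι : Type*} (s k M : ℕ) (φ : ι → ℤ) : Prop :=
  ∀ x y : Fin s → ι, ∀ j : Fin k,
    (M : ℤ) ∣ (∑ i, φ (x i) ^ (j.val + 1) - ∑ i, φ (y i) ^ (j.val + 1)) →
      ∑ i, φ (x i) ^ (j.val + 1) = ∑ i, φ (y i) ^ (j.val + 1)

theorem sum_chi {ι : Type*} [Fintype ι] (s k M : ℕ) [NeZero M] (φ : ι → ℤ)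
    (hM : Big s k M φ) (x y : Fin s → ι) :
    ∑ ξ : Fin k → ZMod M, (∏ i, chi k M ξ (φ (x i))) *
      ∏ i, (starRingEnd ℂ) (chi k M ξ (φ (y i))) =
      if Sys s k (fun i => φ (x i)) (fun i => φ (y i)) then (M : ℂ) ^ k else 0 := by
  classical
  have h1 : ∀ ξ : Fin k → ZMod M, (∏ i, chi k M ξ (φ (x i))) *
      ∏ i, (starRingEnd ℂ) (chi k M ξ (φ (y i))) =
      ∏ j : Fin k, ZMod.stdAddChar (ξ j *
        (((∑ i, φ (x i) ^ (j.val + 1) - ∑ i, φ (y i) ^ (j.val + 1) : ℤ)) : ZMod M)) := by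
    intro ξ
    unfold chi
    simp only [map_prod, conj_stdAddChar]
    rw [Finset.prod_comm, Finset.prod_comm (s := Finset.univ) (t := Finset.univ)
      (f := fun i j => ZMod.stdAddChar (-(ξ j * ((φ (y i) : ZMod M) ^ (j.val + 1))))),
      ← Finset.prod_mul_distrib]
    refine Finset.prod_congr rfl fun j _ => ?_
    rw [← char_sum, ← char_sum, ← AddChar.map_add_eq_mul]
    congr 1
    push_cast
    rw [mul_sub, Finset.mul_sum, Finset.mul_sum, Finset.sum_neg_distrib]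
    ring
  simp only [h1]
  have h2 : ∑ ξ : Fin k → ZMod M, ∏ j : Fin k, (ZMod.stdAddChar (ξ j *
        (((∑ i, φ (x i) ^ (j.val + 1) - ∑ i, φ (y i) ^ (j.val + 1) : ℤ)) : ZMod M)) : ℂ) =
      ∏ j : Fin k, ∑ t : ZMod M, (ZMod.stdAddChar (t *
        (((∑ i, φ (x i) ^ (j.val + 1) - ∑ i, φ (y i) ^ (j.val + 1) : ℤ)) : ZMod M)) : ℂ) := by
    rw [Finset.prod_univ_sum]
    simp
  rw [h2]
  have h3 : ∀ j : Fin k, ∑ t : ZMod M, (ZMod.stdAddChar (t *
        (((∑ i, φ (x i) ^ (j.val + 1) - ∑ i, φ (y i) ^ (j.val + 1) : ℤ)) : ZMod M)) : ℂ) =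
      if ∑ i, φ (x i) ^ (j.val + 1) = ∑ i, φ (y i) ^ (j.val + 1) then (M : ℂ) else 0 := by
    intro j
    rw [AddChar.sum_mulShift _ (ZMod.isPrimitive_stdAddChar M)]
    by_cases h : ∑ i, φ (x i) ^ (j.val + 1) = ∑ i, φ (y i) ^ (j.val + 1)
    · simp [h, ZMod.card]
    · have h' : ¬ (((∑ i, φ (x i) ^ (j.val + 1) - ∑ i, φ (y i) ^ (j.val + 1) : ℤ)) : ZMod M) = 0 := by
        intro h'
        apply h
        apply hM x y j
        exact (ZMod.intCast_zmod_eq_zero_iff_dvd _ _).1 h'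
      rw [if_neg h, if_neg h']
      simp
  simp only [h3]
  by_cases h : Sys s k (fun i => φ (x i)) (fun i => φ (y i))
  · rw [if_pos h]
    rw [Finset.prod_congr rfl (fun j _ => if_pos (h j))]
    simp
  · rw [if_neg h]
    unfold Sys at h
    push Not at h
    obtain ⟨j, hj⟩ := h
    exact Finset.prod_eq_zero (Finset.mem_univ j) (if_neg hj)

theorem moment {ι : Type*} [Fintype ι] (s k M : ℕ) [NeZero M] (φ : ι → ℤ) (w : ι → ℝ)
    (hM : Big s k M φ) :
    ∑ ξ : Fin k → ZMod M, ‖ES k M φ w ξ‖ ^ (2 * s) = (M : ℝ) ^ k * W s k φ w := by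
  classical
  have key : ∀ ξ : Fin k → ZMod M, ((‖ES k M φ w ξ‖ ^ (2 * s) : ℝ) : ℂ) =
      ∑ x : Fin s → ι, ∑ y : Fin s → ι, ((∏ i, (w (x i) : ℂ)) * ∏ i, (w (y i) : ℂ)) *
        ((∏ i, chi k M ξ (φ (x i))) * ∏ i, (starRingEnd ℂ) (chi k M ξ (φ (y i)))) := by
    intro ξ
    have e1 : ((‖ES k M φ w ξ‖ ^ (2 * s) : ℝ) : ℂ) =
        (ES k M φ w ξ) ^ s * ((starRingEnd ℂ) (ES k M φ w ξ)) ^ s := by
      rw [← mul_pow, Complex.mul_conj, pow_mul, Complex.normSq_eq_norm_sq]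
      push_cast
      rfl
    rw [e1]
    unfold ES
    rw [map_sum]
    rw [Fintype.sum_pow, Fintype.sum_pow, Finset.sum_mul_sum]
    refine Finset.sum_congr rfl fun x _ => Finset.sum_congr rfl fun y _ => ?_
    simp only [map_mul, Complex.conj_ofReal, Finset.prod_mul_distrib]
    ring
  have h : ((∑ ξ : Fin k → ZMod M, ‖ES k M φ w ξ‖ ^ (2 * s) : ℝ) : ℂ) =
      (((M : ℝ) ^ k * W s k φ w : ℝ) : ℂ) := by
    rw [Complex.ofReal_sum]
    simp only [key]
    rw [Finset.sum_comm]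
    unfold W
    push_cast
    rw [Finset.mul_sum]
    refine Finset.sum_congr rfl fun x _ => ?_
    rw [Finset.sum_comm, Finset.mul_sum]
    refine Finset.sum_congr rfl fun y _ => ?_
    rw [← Finset.mul_sum, sum_chi s k M φ hM x y]
    split_ifs with h
    · push_cast; ring
    · simp
  exact_mod_cast h

/-- A modulus large enough for a given bounded family exists. -/
theorem exists_big {ι : Type*} [Finite ι] (s k : ℕ) (φ : ι → ℤ) :
    ∃ M₀ : ℕ, ∀ M : ℕ, M₀ ≤ M → Big s k M φ := by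
  classical
  have := Fintype.ofFinite ι
  refine ⟨1 + ∑ x : Fin s → ι, ∑ y : Fin s → ι, ∑ j : Fin k,
    (∑ i, φ (x i) ^ (j.val + 1) - ∑ i, φ (y i) ^ (j.val + 1)).natAbs, ?_⟩
  intro M hM x y j hd
  have hle : (∑ i, φ (x i) ^ (j.val + 1) - ∑ i, φ (y i) ^ (j.val + 1)).natAbs ≤
      ∑ x : Fin s → ι, ∑ y : Fin s → ι, ∑ j : Fin k,
    (∑ i, φ (x i) ^ (j.val + 1) - ∑ i, φ (y i) ^ (j.val + 1)).natAbs := by
    calc (∑ i, φ (x i) ^ (j.val + 1) - ∑ i, φ (y i) ^ (j.val + 1)).natAbs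
        ≤ ∑ j : Fin k, (∑ i, φ (x i) ^ (j.val + 1) - ∑ i, φ (y i) ^ (j.val + 1)).natAbs :=
          Finset.single_le_sum
            (f := fun j : Fin k =>
              (∑ i, φ (x i) ^ (j.val + 1) - ∑ i, φ (y i) ^ (j.val + 1)).natAbs)
            (fun _ _ => Nat.zero_le _) (Finset.mem_univ j)
      _ ≤ ∑ y : Fin s → ι, ∑ j : Fin k,
          (∑ i, φ (x i) ^ (j.val + 1) - ∑ i, φ (y i) ^ (j.val + 1)).natAbs :=
          Finset.single_le_sum
            (f := fun y : Fin s → ι => ∑ j : Fin k,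
              (∑ i, φ (x i) ^ (j.val + 1) - ∑ i, φ (y i) ^ (j.val + 1)).natAbs)
            (fun _ _ => Nat.zero_le _) (Finset.mem_univ y)
      _ ≤ _ :=
          Finset.single_le_sum
            (f := fun x : Fin s → ι => ∑ y : Fin s → ι, ∑ j : Fin k,
              (∑ i, φ (x i) ^ (j.val + 1) - ∑ i, φ (y i) ^ (j.val + 1)).natAbs)
            (fun _ _ => Nat.zero_le _) (Finset.mem_univ x)
  have h0 : ∑ i, φ (x i) ^ (j.val + 1) - ∑ i, φ (y i) ^ (j.val + 1) = 0 := by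
    by_contra hne
    have h1 : M ≤ (∑ i, φ (x i) ^ (j.val + 1) - ∑ i, φ (y i) ^ (j.val + 1)).natAbs := by
      apply Nat.le_of_dvd (Int.natAbs_pos.2 hne)
      exact Int.natCast_dvd.1 hd
    omega
  linarith

end Pool.Agent.Q93.VM
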