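import Pool.Agent.Q93.VM.Defs

/-!
# The lower bound `J_{3,2}(N) ≥ c N³ log N`
-/

namespace Pool.Agent.Q93.VM

open Finset

/-- coprime pairs in `[1,x]²` -/
def CP (x : ℕ) : Finset (ℕ × ℕ) :=
  ((Finset.Icc 1 x) ×ˢ (Finset.Icc 1 x)).filter (fun p => Nat.Coprime p.1 p.2)

theorem sum_inv_sq (x : ℕ) (hx : 2 ≤ x) :
    ∑ d ∈ Finset.Icc 2 x, (1 : ℝ) / (d : ℝ) ^ 2 ≤ 3 / 4 - 1 / x := by
  induction x, hx using Nat.le_induction with
  | base => norm_num
  | succ n hn ih =>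
    rw [Finset.sum_Icc_succ_top (by omega)]
    have hn0 : (0 : ℝ) < n := by exact_mod_cast (by omega : 0 < n)
    have h1 : (1 : ℝ) / ((n + 1 : ℕ) : ℝ) ^ 2 ≤ 1 / (n : ℝ) - 1 / ((n + 1 : ℕ) : ℝ) := by
      push_cast
      rw [div_sub_div _ _ (by positivity) (by positivity),
        div_le_div_iff₀ (by positivity) (by positivity)]
      nlinarith
    linarith

theorem card_dvd (x d : ℕ) : ((Finset.Icc 1 x).filter (fun i => d ∣ i)).card = x / d := by
  have h := Nat.Ioc_filter_dvd_card_eq_div x d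
  rwa [← Finset.Icc_add_one_left_eq_Ioc] at h

theorem card_CP (x : ℕ) : (x : ℝ) ^ 2 / 4 ≤ (CP x).card := by
  classical
  rcases Nat.lt_or_ge x 2 with hx | hx
  · interval_cases x
    · simp
    · have : (CP 1).card = 1 := by decide
      rw [this]; norm_num
  have hsub : (Finset.Icc 1 x) ×ˢ (Finset.Icc 1 x) ⊆ CP x ∪ (Finset.Icc 2 x).biUnion
      (fun d => ((Finset.Icc 1 x).filter (fun i => d ∣ i)) ×ˢ
        ((Finset.Icc 1 x).filter (fun i => d ∣ i))) := by
    intro p hp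
    rw [Finset.mem_union]
    by_cases hc : Nat.Coprime p.1 p.2
    · left
      exact Finset.mem_filter.2 ⟨hp, hc⟩
    · right
      rw [Finset.mem_product, Finset.mem_Icc, Finset.mem_Icc] at hp
      have hg : p.1.gcd p.2 ≠ 1 := hc
      have hg0 : 0 < p.1.gcd p.2 := Nat.gcd_pos_of_pos_left _ (by omega)
      have hgle : p.1.gcd p.2 ≤ p.1 := Nat.gcd_le_left _ (by omega)
      rw [Finset.mem_biUnion]
      refine ⟨p.1.gcd p.2, Finset.mem_Icc.2 ⟨by omega, by omega⟩, ?_⟩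
      rw [Finset.mem_product, Finset.mem_filter, Finset.mem_filter, Finset.mem_Icc,
        Finset.mem_Icc]
      exact ⟨⟨hp.1, Nat.gcd_dvd_left _ _⟩, ⟨hp.2, Nat.gcd_dvd_right _ _⟩⟩
  have h1 := (Finset.card_le_card hsub).trans (Finset.card_union_le _ _)
  have h2 : ((Finset.Icc 2 x).biUnion
      (fun d => ((Finset.Icc 1 x).filter (fun i => d ∣ i)) ×ˢ
        ((Finset.Icc 1 x).filter (fun i => d ∣ i)))).card ≤
      ∑ d ∈ Finset.Icc 2 x, (x / d) * (x / d) := by
    refine Finset.card_biUnion_le.trans (le_of_eq ?_)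
    refine Finset.sum_congr rfl fun d _ => ?_
    rw [Finset.card_product, card_dvd]
  rw [Finset.card_product, Nat.card_Icc, Nat.add_sub_cancel] at h1
  have h3 : (x : ℝ) * x ≤ (CP x).card + ∑ d ∈ Finset.Icc 2 x, ((x / d : ℕ) : ℝ) * ((x / d : ℕ) : ℝ) := by
    exact_mod_cast h1.trans (Nat.add_le_add_left h2 _)
  have h4 : ∑ d ∈ Finset.Icc 2 x, ((x / d : ℕ) : ℝ) * ((x / d : ℕ) : ℝ) ≤ (x : ℝ) ^ 2 * (3 / 4) := by
    calc ∑ d ∈ Finset.Icc 2 x, ((x / d : ℕ) : ℝ) * ((x / d : ℕ) : ℝ)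
        ≤ ∑ d ∈ Finset.Icc 2 x, (x : ℝ) ^ 2 * ((1 : ℝ) / (d : ℝ) ^ 2) := by
          refine Finset.sum_le_sum fun d hd => ?_
          have hd0 : (0 : ℝ) < d := by
            have := (Finset.mem_Icc.1 hd).1
            exact_mod_cast (by omega : 0 < d)
          have h5 : ((x / d : ℕ) : ℝ) ≤ (x : ℝ) / d := Nat.cast_div_le
          calc ((x / d : ℕ) : ℝ) * ((x / d : ℕ) : ℝ) ≤ ((x : ℝ) / d) * ((x : ℝ) / d) :=
                mul_le_mul h5 h5 (by positivity) (by positivity)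
            _ = _ := by field_simp
      _ = (x : ℝ) ^ 2 * ∑ d ∈ Finset.Icc 2 x, ((1 : ℝ) / (d : ℝ) ^ 2) := by
          rw [Finset.mul_sum]
      _ ≤ (x : ℝ) ^ 2 * (3 / 4) := by
          refine mul_le_mul_of_nonneg_left ?_ (by positivity)
          have := sum_inv_sq x hx
          have h6 : (0 : ℝ) ≤ 1 / x := by positivity
          linarith
  nlinarith

/-- parameters of the family of solutions -/
def Par (n : ℕ) : Finset (ℕ × (Σ _ : ℕ, ℕ × (ℕ × ℕ))) :=
  (Finset.Icc (n + 1) (2 * n)) ×ˢ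
    ((Finset.Icc 1 n).sigma fun g => (Finset.Icc 1 g) ×ˢ CP (n / g))

theorem card_Par (n : ℕ) : (n : ℝ) ^ 3 * Real.log (n + 1) / 16 ≤ (Par n).card := by
  have h1 : (Par n).card = n * ∑ g ∈ Finset.Icc 1 n, g * (CP (n / g)).card := by
    unfold Par
    rw [Finset.card_product, Finset.card_sigma]
    congr 1
    · rw [Nat.card_Icc]; omega
    · refine Finset.sum_congr rfl fun g _ => ?_
      rw [Finset.card_product, Nat.card_Icc, Nat.add_sub_cancel]
  rw [h1]
  push_cast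
  have h2 : (n : ℝ) ^ 2 / 16 * ∑ g ∈ Finset.Icc 1 n, ((g : ℝ))⁻¹ ≤
      ∑ g ∈ Finset.Icc 1 n, (g : ℝ) * (CP (n / g)).card := by
    rw [Finset.mul_sum]
    refine Finset.sum_le_sum fun g hg => ?_
    have hg' := Finset.mem_Icc.1 hg
    have hg0 : (0 : ℝ) < g := by exact_mod_cast hg'.1
    have h3 := card_CP (n / g)
    have h4 : (n : ℝ) / (2 * g) ≤ ((n / g : ℕ) : ℝ) := by
      have h5 : 1 ≤ n / g := (Nat.one_le_div_iff (by omega)).2 hg'.2
      have h6 : n < g * (n / g + 1) := Nat.lt_mul_div_succ n (by omega)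
      have h7 : n ≤ 2 * g * (n / g) := by nlinarith
      rw [div_le_iff₀ (by positivity)]
      have : (n : ℝ) ≤ 2 * g * ((n / g : ℕ) : ℝ) := by exact_mod_cast h7
      linarith
    calc (n : ℝ) ^ 2 / 16 * ((g : ℝ))⁻¹ = g * (((n : ℝ) / (2 * g)) ^ 2 / 4) := by
          field_simp
          ring
      _ ≤ g * ((((n / g : ℕ) : ℝ)) ^ 2 / 4) := by
          refine mul_le_mul_of_nonneg_left ?_ hg0.le
          have : ((n : ℝ) / (2 * g)) ^ 2 ≤ (((n / g : ℕ) : ℝ)) ^ 2 :=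
            pow_le_pow_left₀ (by positivity) h4 2
          linarith
      _ ≤ _ := mul_le_mul_of_nonneg_left h3 hg0.le
  have h3 : Real.log (n + 1) ≤ ∑ g ∈ Finset.Icc 1 n, ((g : ℝ))⁻¹ := by
    have := log_add_one_le_harmonic n
    rw [harmonic_eq_sum_Icc] at this
    push_cast at this
    exact this
  calc (n : ℝ) ^ 3 * Real.log (n + 1) / 16 = n * ((n : ℝ) ^ 2 / 16 * Real.log (n + 1)) := by ring
    _ ≤ n * ((n : ℝ) ^ 2 / 16 * ∑ g ∈ Finset.Icc 1 n, ((g : ℝ))⁻¹) := by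
        refine mul_le_mul_of_nonneg_left (mul_le_mul_of_nonneg_left h3 (by positivity))
          (by positivity)
    _ ≤ _ := mul_le_mul_of_nonneg_left h2 (by positivity)

/-- the family -/
def fam (p : ℕ × (Σ _ : ℕ, ℕ × (ℕ × ℕ))) : (Fin 3 → ℤ) × (Fin 3 → ℤ) :=
  let q : ℤ := p.1
  let g : ℤ := p.2.1
  let β : ℤ := p.2.2.1
  let i : ℤ := p.2.2.2.1
  let j : ℤ := p.2.2.2.2
  (![q + j * β + g * i, q + g * j - g * i, q + i * β - g * j],
    ![q + j * β - g * i, q - g * j + g * i, q + i * β + g * j])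

theorem fam_mem (n : ℕ) (p : ℕ × (Σ _ : ℕ, ℕ × (ℕ × ℕ))) (hp : p ∈ Par n) :
    fam p ∈ Sol 3 2 (Finset.Icc (1 : ℤ) (4 * n : ℕ)) := by
  obtain ⟨q, g, β, i, j⟩ := p
  unfold Par CP at hp
  simp only [Finset.mem_product, Finset.mem_sigma, Finset.mem_filter, Finset.mem_Icc] at hp
  obtain ⟨hq, hg, hβ, ⟨hi, hj⟩, hc⟩ := hp
  have hi2 : g * i ≤ n := by
    calc g * i ≤ g * (n / g) := Nat.mul_le_mul_left _ hi.2
      _ ≤ n := Nat.mul_div_le n g
  have hj2 : g * j ≤ n := by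
    calc g * j ≤ g * (n / g) := Nat.mul_le_mul_left _ hj.2
      _ ≤ n := Nat.mul_div_le n g
  have hib : i * β ≤ n := by
    calc i * β ≤ i * g := Nat.mul_le_mul_left _ hβ.2
      _ = g * i := Nat.mul_comm _ _
      _ ≤ n := hi2
  have hjb : j * β ≤ n := by
    calc j * β ≤ j * g := Nat.mul_le_mul_left _ hβ.2
      _ = g * j := Nat.mul_comm _ _
      _ ≤ n := hj2
  have hi2' : (g : ℤ) * i ≤ n := by exact_mod_cast hi2
  have hj2' : (g : ℤ) * j ≤ n := by exact_mod_cast hj2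
  have hib' : (i : ℤ) * β ≤ n := by exact_mod_cast hib
  have hjb' : (j : ℤ) * β ≤ n := by exact_mod_cast hjb
  have hi0 : (0 : ℤ) ≤ (g : ℤ) * i := by positivity
  have hj0 : (0 : ℤ) ≤ (g : ℤ) * j := by positivity
  have hib0 : (0 : ℤ) ≤ (i : ℤ) * β := by positivity
  have hjb0 : (0 : ℤ) ≤ (j : ℤ) * β := by positivity
  have hq1 : (n : ℤ) + 1 ≤ q := by exact_mod_cast hq.1
  have hq2 : (q : ℤ) ≤ 2 * n := by exact_mod_cast hq.2
  unfold Sol
  rw [Finset.mem_filter, Finset.mem_product, Fintype.mem_piFinset, Fintype.mem_piFinset]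
  refine ⟨⟨?_, ?_⟩, ?_⟩
  · intro l
    rw [Finset.mem_Icc]
    push_cast
    fin_cases l <;> simp [fam] <;> constructor <;> linarith
  · intro l
    rw [Finset.mem_Icc]
    push_cast
    fin_cases l <;> simp [fam] <;> constructor <;> linarith
  · intro l
    fin_cases l <;> simp [fam, Fin.sum_univ_three] <;> ring

theorem fam_inj (n : ℕ) : Set.InjOn fam (Par n : Set _) := by
  rintro ⟨q, g, β, i, j⟩ hp ⟨q', g', β', i', j'⟩ hp' h
  rw [Finset.mem_coe] at hp hp'
  unfold Par CP at hp hp'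
  simp only [Finset.mem_product, Finset.mem_sigma, Finset.mem_filter, Finset.mem_Icc] at hp hp'
  obtain ⟨hq, hg, hβ, ⟨hi, hj⟩, hc⟩ := hp
  obtain ⟨hq', hg', hβ', ⟨hi', hj'⟩, hc'⟩ := hp'
  unfold fam at h
  simp only [Prod.mk.injEq] at h
  obtain ⟨hx, hy⟩ := h
  have x0 := congrFun hx 0
  have x1 := congrFun hx 1
  have x2 := congrFun hx 2
  have y0 := congrFun hy 0
  have y1 := congrFun hy 1
  have y2 := congrFun hy 2
  simp at x0 x1 x2 y0 y1 y2
  have e1 : (g : ℤ) * i = g' * i' := by linarith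
  have e2 : (q : ℤ) = q' := by linarith
  have e3 : (g : ℤ) * j = g' * j' := by linarith
  have e4 : (i : ℤ) * β = i' * β' := by linarith
  have f1 : g * i = g' * i' := by exact_mod_cast e1
  have f2 : q = q' := by exact_mod_cast e2
  have f3 : g * j = g' * j' := by exact_mod_cast e3
  have f4 : i * β = i' * β' := by exact_mod_cast e4
  have hgg : g = g' := by
    have h1 : Nat.gcd (g * i) (g * j) = g := by rw [Nat.gcd_mul_left, hc, mul_one]
    have h2 : Nat.gcd (g' * i') (g' * j') = g' := by rw [Nat.gcd_mul_left, hc', mul_one]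
    rw [← h1, ← h2, f1, f3]
  subst hgg
  have hii : i = i' := Nat.eq_of_mul_eq_mul_left (by omega) f1
  have hjj : j = j' := Nat.eq_of_mul_eq_mul_left (by omega) f3
  subst hii hjj f2
  have hbb : β = β' := Nat.eq_of_mul_eq_mul_left (by omega) f4
  subst hbb
  rfl

theorem J_lower_aux (n : ℕ) : (n : ℝ) ^ 3 * Real.log (n + 1) / 16 ≤
    J 3 2 (Finset.Icc (1 : ℤ) (4 * n : ℕ)) := by
  refine (card_Par n).trans ?_
  have := Finset.card_le_card_of_injOn fam (fun p hp => fam_mem n p hp) (fam_inj n)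
  exact_mod_cast this

theorem J_diag (s k : ℕ) (A : Finset ℤ) : A.card ^ s ≤ J s k A := by
  classical
  have h : ((Fintype.piFinset fun _ : Fin s => A).image (fun x => (x, x))) ⊆ Sol s k A := by
    intro p hp
    obtain ⟨x, hx, rfl⟩ := Finset.mem_image.1 hp
    exact Finset.mem_filter.2 ⟨Finset.mem_product.2 ⟨hx, hx⟩, fun _ => rfl⟩
  have h1 := Finset.card_le_card h
  rw [Finset.card_image_of_injective _ (fun x y h => (Prod.mk.inj h).1)] at h1
  simpa [Fintype.card_piFinset, J] using h1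

theorem J_lower (N : ℕ) (hN : 1 ≤ N) : (N : ℝ) ^ 3 * Real.log N ≤
    2 ^ 14 * J 3 2 (Finset.Icc (1 : ℤ) N) := by
  rcases Nat.lt_or_ge N 16 with h | h
  · have h1 := J_diag 3 2 (Finset.Icc (1 : ℤ) N)
    rw [Int.card_Icc] at h1
    have e : ((N : ℤ) + 1 - 1).toNat = N := by omega
    rw [e] at h1
    have h2 : (N : ℝ) ^ 3 ≤ J 3 2 (Finset.Icc (1 : ℤ) N) := by exact_mod_cast h1
    have h3 : Real.log N ≤ 15 := by
      have : Real.log N ≤ (N : ℝ) - 1 := Real.log_le_sub_one_of_pos (by exact_mod_cast hN)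
      have h4 : (N : ℝ) ≤ 16 := by exact_mod_cast h.le
      linarith
    have h0 : (0 : ℝ) ≤ (N : ℝ) ^ 3 := by positivity
    nlinarith
  · set n := N / 4 with hn
    have h1 := J_lower_aux n
    have h4n : 4 * n ≤ N := by omega
    have h2 : J 3 2 (Finset.Icc (1 : ℤ) (4 * n : ℕ)) ≤ J 3 2 (Finset.Icc (1 : ℤ) N) := by
      apply J_mono
      apply Finset.Icc_subset_Icc_right
      exact_mod_cast h4n
    have h2' : (J 3 2 (Finset.Icc (1 : ℤ) (4 * n : ℕ)) : ℝ) ≤ J 3 2 (Finset.Icc (1 : ℤ) N) := by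
      exact_mod_cast h2
    have h3 : (N : ℝ) / 8 ≤ n := by
      have : N ≤ 8 * n := by omega
      rw [div_le_iff₀ (by norm_num)]
      have : (N : ℝ) ≤ 8 * n := by exact_mod_cast this
      linarith
    have hN0 : (0 : ℝ) < N := by exact_mod_cast hN
    have h5 : Real.log N / 2 ≤ Real.log (n + 1) := by
      have h6 : Real.sqrt N ≤ (n : ℝ) + 1 := by
        have h7 : (N : ℝ) / 4 ≤ n + 1 := by
          have : N ≤ 4 * (n + 1) := by omega
          rw [div_le_iff₀ (by norm_num)]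
          have : (N : ℝ) ≤ 4 * (n + 1) := by exact_mod_cast this
          linarith
        refine le_trans ?_ h7
        have h16 : (16 : ℝ) ≤ N := by exact_mod_cast h
        rw [Real.sqrt_le_left (by positivity)]
        nlinarith
      rw [← Real.log_sqrt hN0.le]
      exact Real.log_le_log (Real.sqrt_pos.2 hN0) h6
    have hlog : 0 ≤ Real.log N := Real.log_natCast_nonneg N
    have h8 : ((N : ℝ) / 8) ^ 3 * (Real.log N / 2) / 16 ≤ (n : ℝ) ^ 3 * Real.log (n + 1) / 16 := by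
      refine div_le_div_of_nonneg_right ?_ (by norm_num)
      exact mul_le_mul (pow_le_pow_left₀ (by positivity) h3 3) h5 (by positivity) (by positivity)
    have h9 : (N : ℝ) ^ 3 * Real.log N = 2 ^ 14 * (((N : ℝ) / 8) ^ 3 * (Real.log N / 2) / 16) := by
      ring
    rw [h9]
    linarith

end Pool.Agent.Q93.VM
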